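import Mathlib
import Pool.Agent.H447R2.ML.P9
import Pool.Agent.H447R2.ML.Q3
import Pool.Agent.H447R2.ML.Pert2

set_option autoImplicit false

/-!
# Sparse subfamilies: Borel-Cantelli and window probabilities
-/

namespace Pool.Agent.H473R4

open Filter Topology MeasureTheory
open Pool.Agent.H305R2 (roughPart ff measurable_ff ff_nonneg ff_le_one integrableOn_ff)
open Pool.Agent.H447R2.ML (Loc fl measurable_fl fl_nonneg fl_le_one integrableOn_fl)

/-- Borel-Cantelli for functions with values `0` and `1` -/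
lemma bc0 {F : ℕ → ℝ → ℝ} (hF : ∀ m, Measurable (F m)) (h01 : ∀ m t, F m t = 0 ∨ F m t = 1)
    {a b : ℝ} {G : ℕ → ℝ} (hG : Summable G)
    (hle : ∀ᶠ m in atTop, ∫ t in Set.Ioc a b, F m t ≤ G m) :
    ∀ᵐ t : ℝ, t ∈ Set.Ioc a b → ∀ᶠ m in atTop, F m t = 0 := by
  set ν := (volume : Measure ℝ).restrict (Set.Ioc a b) with hν
  have hmeas : ∀ m, MeasurableSet (F m ⁻¹' {1}) := fun m => hF m (measurableSet_singleton 1)
  have hint : ∀ m, ∫ t in Set.Ioc a b, F m t = ν.real (F m ⁻¹' {1}) := by
    intro m
    rw [← integral_indicator_one (hmeas m)]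
    refine integral_congr_ae (Eventually.of_forall fun t => ?_)
    rcases h01 m t with h | h
    · have : t ∉ F m ⁻¹' {1} := by
        simp only [Set.mem_preimage, Set.mem_singleton_iff, h]; norm_num
      simp only [Set.indicator_of_notMem this, h]
    · have : t ∈ F m ⁻¹' {1} := by
        simp only [Set.mem_preimage, Set.mem_singleton_iff, h]
      simp only [Set.indicator_of_mem this, h, Pi.one_apply]
  have hsum : Summable fun m => ν.real (F m ⁻¹' {1}) := by
    refine Summable.of_norm_bounded_eventually_nat hG ?_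
    filter_upwards [hle] with m hm
    rw [hint] at hm
    rw [Real.norm_eq_abs, abs_of_nonneg measureReal_nonneg]
    exact hm
  have hfin : (∑' m, ν (F m ⁻¹' {1})) ≠ ⊤ := by
    have e : ∀ m, ν (F m ⁻¹' {1}) = ENNReal.ofReal (ν.real (F m ⁻¹' {1})) := by
      intro m
      rw [ofReal_measureReal (measure_ne_top ν _)]
    simp only [e]
    exact hsum.tsum_ofReal_ne_top
  have h := ae_eventually_notMem hfin
  rw [hν, ae_restrict_iff' measurableSet_Ioc] at h
  filter_upwards [h] with t ht htI
  filter_upwards [ht htI] with m hm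
  rcases h01 m t with h | h
  · exact h
  · exact absurd h hm

/-- window asymptotics for windows of length at most one and bounded perturbations -/
lemma asymp_l {g : ℕ → ℝ} {κ C : ℝ} (hκ : 0 ≤ κ) (hC : 0 < C)
    (hg : ∀ p : ℕ, |g p| ≤ C * Real.exp (κ * p)) {l : ℝ} (hl : 0 < l) (hl1 : l ≤ 1)
    {a : ℝ} (ha : κ < a) {y : ℕ → ℝ}
    (hy : Tendsto (fun p : ℕ => y p / p) atTop (𝓝 a)) :
    Tendsto (fun p : ℕ => (∫ t in Set.Ioc (y p) (y p + l), fl g p t) * (p / Real.log p)) atTop
      (𝓝 (Real.exp Real.eulerMascheroniConstant * l / a)) := by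
  have ha0 : 0 < a := by linarith
  set c := (κ + a) / 2 with hc
  have hκc : κ < c := by rw [hc]; linarith
  have hca : c < a := by rw [hc]; linarith
  have hδ : 0 < c - κ := by linarith
  have hcy : ∀ᶠ p : ℕ in atTop, c * p ≤ y p := by
    filter_upwards [hy.eventually_const_lt hca, eventually_ge_atTop 1] with p hp hp1
    have hp0 : (0 : ℝ) < p := by exact_mod_cast hp1
    rw [lt_div_iff₀ hp0] at hp
    exact hp.le
  set y' : ℕ → ℝ := fun p => Real.log (Real.exp (y p) + g p) with hy'd
  have hbasic : ∀ᶠ p : ℕ in atTop, 1 ≤ p ∧ 0 < C * Real.exp (-((c - κ) * p)) ∧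
      C * Real.exp (-((c - κ) * p)) ≤ 1 / 4 ∧ |y' p - y p| ≤ 2 * (C * Real.exp (-((c - κ) * p))) ∧
      |(∫ t in Set.Ioc (y p) (y p + l), fl g p t) - ∫ t in Set.Ioc (y' p) (y' p + l), ff p t| ≤
        6 * (C * Real.exp (-((c - κ) * p))) := by
    filter_upwards [hcy, Pool.Agent.H447R2.ML.hdecay 0 (c - κ) (1 / (4 * C)) hδ (by positivity),
      eventually_ge_atTop 1] with p hp hd0 hp1
    set ε := C * Real.exp (-((c - κ) * p)) with hεd
    have hε0 : 0 < ε := by positivity
    have hε1 : ε ≤ 1 / 4 := by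
      rw [pow_zero, one_mul, lt_div_iff₀ (by positivity)] at hd0
      rw [hεd]
      linarith
    have hgy : |g p| ≤ ε * Real.exp (y p) := Pool.Agent.H447R2.ML.eps_bound hC hg hp
    have hyy : y p ≤ y p + l := by linarith
    have hcmp := Pool.Agent.H447R2.ML.compare hε1 hgy hyy
    have hs1 := Pool.Agent.H447R2.ML.shift hε1 hgy le_rfl
    have hs2 := Pool.Agent.H447R2.ML.shift hε1 hgy hyy
    refine ⟨hp1, hε0, hε1, hs1, ?_⟩
    have hA1 : ∫ t in Set.Ioc (y p) (y p + l), fl g p t ≤ 1 := by
      calc ∫ t in Set.Ioc (y p) (y p + l), fl g p t ≤ ∫ t in Set.Ioc (y p) (y p + l), (1 : ℝ) :=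
            setIntegral_mono_on (integrableOn_fl g p _ _) (integrableOn_const (by simp))
              measurableSet_Ioc fun t _ => fl_le_one g p t
        _ = l := by
            rw [setIntegral_const, smul_eq_mul, mul_one, Real.volume_real_Ioc_of_le hyy]
            ring
        _ ≤ 1 := hl1
    have hmono : Real.log (Real.exp (y p) + g p) ≤ Real.log (Real.exp (y p + l) + g p) := by
      have h1 := (abs_le.1 hgy).1
      have h2 := Real.exp_pos (y p)
      have h3 : Real.exp (y p) ≤ Real.exp (y p + l) := Real.exp_le_exp.2 hyy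
      exact Real.log_le_log (by nlinarith) (by linarith)
    have hB : (∫ u in Set.Ioc (Real.log (Real.exp (y p) + g p))
          (Real.log (Real.exp (y p + l) + g p)), ff p u) -
        ∫ t in Set.Ioc (y' p) (y' p + l), ff p t =
        Pool.Agent.H305R2.FF p (Real.log (Real.exp (y p + l) + g p)) -
          Pool.Agent.H305R2.FF p (y' p + l) := by
      rw [← Pool.Agent.H305R2.FF_sub p hmono,
        ← Pool.Agent.H305R2.FF_sub p (show y' p ≤ y' p + l by linarith)]
      ring
    have hB2 := Pool.Agent.H447R2.ML.FF_lip p (Real.log (Real.exp (y p + l) + g p)) (y' p + l)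
    rw [← hB] at hB2
    have hB3 : |Real.log (Real.exp (y p + l) + g p) - (y' p + l)| ≤ 4 * ε := by
      have e : Real.log (Real.exp (y p + l) + g p) - (y' p + l) =
          (Real.log (Real.exp (y p + l) + g p) - (y p + l)) - (y' p - y p) := by ring
      rw [e]
      refine (abs_sub _ _).trans ?_
      have : |y' p - y p| ≤ 2 * ε := hs1
      linarith
    have h5 := hB2.trans hB3
    have hA0 : 0 ≤ ∫ t in Set.Ioc (y p) (y p + l), fl g p t :=
      setIntegral_nonneg measurableSet_Ioc fun t _ => fl_nonneg g p t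
    have h6 : 2 * ε * ∫ t in Set.Ioc (y p) (y p + l), fl g p t ≤ 2 * ε := by nlinarith
    have h7 := abs_le.1 (hcmp.trans h6)
    have h8 := abs_le.1 h5
    rw [abs_le]
    constructor <;> linarith
  have hy' : Tendsto (fun p : ℕ => y' p / p) atTop (𝓝 a) := by
    have h1 : Tendsto (fun p : ℕ => (y' p - y p) / p) atTop (𝓝 0) := by
      refine squeeze_zero_norm' ?_ (tendsto_one_div_atTop_nhds_zero_nat (𝕜 := ℝ))
      filter_upwards [hbasic] with p hp
      obtain ⟨hp1, -, h2, h3, -⟩ := hp
      have hp0 : (0 : ℝ) < p := by exact_mod_cast hp1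
      rw [Real.norm_eq_abs, abs_div, abs_of_pos hp0]
      gcongr
      linarith
    have h2 := h1.add hy
    rw [zero_add] at h2
    refine h2.congr fun p => ?_
    ring
  have hmain := Pool.Agent.H447R2.ML.window_asymp_l ha0 hl hl1 hy'
  have hdiff : Tendsto (fun p : ℕ => ((∫ t in Set.Ioc (y p) (y p + l), fl g p t) -
      ∫ t in Set.Ioc (y' p) (y' p + l), ff p t) * (p / Real.log p)) atTop (𝓝 0) := by
    have h0 : Tendsto (fun p : ℕ => 6 * C * ((p : ℝ) ^ 1 * Real.exp (-((c - κ) * p)))) atTop
        (𝓝 0) := by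
      have hcast := tendsto_natCast_atTop_atTop (R := ℝ)
      have h1 := (Real.tendsto_pow_mul_exp_neg_atTop_nhds_zero 1).comp (hcast.const_mul_atTop hδ)
      have h2 := h1.const_mul (6 * C * (c - κ)⁻¹)
      rw [mul_zero] at h2
      refine h2.congr fun p => ?_
      simp only [Function.comp]
      field_simp
    refine squeeze_zero_norm' ?_ h0
    filter_upwards [hbasic, eventually_ge_atTop 3] with p hp hp3
    obtain ⟨-, h1, -, -, h4⟩ := hp
    have hp3' : (3 : ℝ) ≤ p := by exact_mod_cast hp3
    have hp0 : (0 : ℝ) < p := by linarith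
    have hlog : 1 ≤ Real.log p := by
      rw [Real.le_log_iff_exp_le hp0]
      have := Real.exp_one_lt_d9
      linarith
    rw [Real.norm_eq_abs, abs_mul, abs_of_nonneg (show (0 : ℝ) ≤ p / Real.log p by positivity)]
    calc _ ≤ 6 * (C * Real.exp (-((c - κ) * p))) * (p / 1) := by
          gcongr
      _ = _ := by ring
  have h := hdiff.add hmain
  rw [zero_add] at h
  refine h.congr fun p => ?_
  ring

/-- window asymptotics for all windows -/
theorem asymp_all {g : ℕ → ℝ} {κ C : ℝ} (hκ : 0 ≤ κ) (hC : 0 < C)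
    (hg : ∀ p : ℕ, |g p| ≤ C * Real.exp (κ * p))
    {a : ℝ} (ha : κ < a) {y : ℕ → ℝ}
    (hy : Tendsto (fun p : ℕ => y p / p) atTop (𝓝 a)) :
    ∀ k : ℕ, ∀ s t : ℝ, s < t → t ≤ s + (k + 1) →
    Tendsto (fun p : ℕ => (∫ u in Set.Ioc (y p + s) (y p + t), fl g p u) * (p / Real.log p)) atTop
      (𝓝 (Real.exp Real.eulerMascheroniConstant * (t - s) / a)) := by
  have hshift : ∀ s : ℝ, Tendsto (fun p : ℕ => (y p + s) / p) atTop (𝓝 a) := by
    intro s
    have h1 : Tendsto (fun p : ℕ => s / (p : ℝ)) atTop (𝓝 0) :=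
      tendsto_const_nhds.div_atTop tendsto_natCast_atTop_atTop
    have h2 := hy.add h1
    rw [add_zero] at h2
    exact h2.congr fun p => by ring
  intro k
  induction k with
  | zero =>
    intro s t hst ht
    have h := asymp_l hκ hC hg (l := t - s) (by linarith) (by push_cast at ht; linarith) ha (hshift s)
    refine h.congr fun p => ?_
    rw [show y p + s + (t - s) = y p + t by ring]
  | succ k ih =>
    intro s t hst ht
    rcases le_or_gt t (s + (k + 1)) with h | h
    · exact ih s t hst h
    · have h1 := ih s (s + (k + 1)) (by positivity |> fun (h : (0:ℝ) < k + 1) => by linarith) le_rfl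
      have h2 := asymp_l hκ hC hg (l := t - (s + (k + 1))) (by linarith)
        (by push_cast at ht; linarith) ha (hshift (s + (k + 1)))
      have h3 := h1.add h2
      have e : Real.exp Real.eulerMascheroniConstant * (s + (k + 1) - s) / a +
          Real.exp Real.eulerMascheroniConstant * (t - (s + (k + 1))) / a =
          Real.exp Real.eulerMascheroniConstant * (t - s) / a := by ring
      rw [e] at h3
      refine h3.congr fun p => ?_
      rw [← add_mul]
      congr 1
      rw [show y p + (s + (k + 1)) + (t - (s + (k + 1))) = y p + t by ring,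
        ← setIntegral_union (Set.Ioc_disjoint_Ioc_of_le le_rfl) measurableSet_Ioc
          (integrableOn_fl g p _ _) (integrableOn_fl g p _ _),
        Set.Ioc_union_Ioc_eq_Ioc (by linarith [show (0:ℝ) ≤ k by positivity]) (by linarith)]

end Pool.Agent.H473R4
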