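import Mathlib

set_option autoImplicit false

/-!
# Infinitely many special terms and the counting function
-/

namespace Pool.Agent.H473R4

open Filter

lemma tendsto_iff (F : ℕ → ℕ) (T : ℕ → Prop) (P₀ : ℕ)
    (h : ∀ p : ℕ, p.Prime → P₀ ≤ p → ((F p).Prime ↔ T p)) :
    {p : ℕ | p.Prime ∧ T p}.Infinite ↔ Tendsto (fun n =>
      ((Finset.range (n + 1)).filter (fun p => p.Prime ∧ (F p).Prime)).card) atTop atTop := by
  have h0 : {p : ℕ | p.Prime ∧ T p}.Infinite ↔ {p : ℕ | p.Prime ∧ (F p).Prime}.Infinite := by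
    have key : ∀ A B : Set ℕ, (∀ p, P₀ ≤ p → (p ∈ A → p ∈ B)) → A.Infinite → B.Infinite := by
      intro A B hAB hA hB
      apply hA
      refine (hB.union (Set.finite_lt_nat P₀)).subset fun p hp => ?_
      rcases lt_or_ge p P₀ with h1 | h1
      · exact Or.inr h1
      · exact Or.inl (hAB p h1 hp)
    constructor
    · exact key _ _ fun p h1 h2 => ⟨h2.1, (h p h2.1 h1).2 h2.2⟩
    · exact key _ _ fun p h1 h2 => ⟨h2.1, (h p h2.1 h1).1 h2.2⟩
  rw [h0]
  constructor
  · intro hinf
    refine tendsto_atTop_atTop_of_monotone ?_ ?_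
    · intro m n hmn
      refine Finset.card_le_card (Finset.filter_subset_filter _ ?_)
      exact Finset.range_mono (by omega)
    · intro c
      obtain ⟨t, ht, hc⟩ := hinf.exists_subset_card_eq c
      refine ⟨t.sup id, ?_⟩
      rw [← hc]
      refine Finset.card_le_card fun p hp => ?_
      rw [Finset.mem_filter, Finset.mem_range]
      exact ⟨Nat.lt_succ_of_le (Finset.le_sup (f := id) hp), ht hp⟩
  · intro ht hfin
    obtain ⟨n, hn⟩ := (ht.eventually_gt_atTop hfin.toFinset.card).exists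
    have : ((Finset.range (n + 1)).filter (fun p => p.Prime ∧ (F p).Prime)).card ≤
        hfin.toFinset.card := by
      refine Finset.card_le_card fun p hp => ?_
      rw [Finset.mem_filter] at hp
      rw [Set.Finite.mem_toFinset]
      exact hp.2
    omega

/-- a prime Fibonacci number has prime index, except `F_4 = 3` -/
lemma fib_prime_index {n : ℕ} (h : (Nat.fib n).Prime) (h4 : n ≠ 4) : n.Prime := by
  by_contra hn
  have hn2 : 2 ≤ n := by
    by_contra h2
    interval_cases n <;> simp [Nat.not_prime_zero, Nat.not_prime_one] at h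
  obtain ⟨d, hd1, hd2, hd3⟩ : ∃ d, d ∣ n ∧ 3 ≤ d ∧ d < n := by
    set m := n.minFac with hm
    have hmp : m.Prime := Nat.minFac_prime (by omega)
    obtain ⟨e, he⟩ := Nat.minFac_dvd n
    rw [← hm] at he
    have hmn : m < n := (Nat.not_prime_iff_minFac_lt hn2).1 hn
    have he2 : 2 ≤ e := by
      rcases e with _ | _ | e
      · omega
      · omega
      · omega
    have hme : m ≤ e := by
      have hd : e.minFac ∣ n := (Nat.minFac_dvd e).trans ⟨m, by rw [he, mul_comm]⟩
      exact (Nat.minFac_le_of_dvd (Nat.minFac_prime (by omega)).two_le hd).trans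
        (Nat.minFac_le (by omega))
    refine ⟨e, ⟨m, by rw [he, mul_comm]⟩, ?_, ?_⟩
    · by_contra h3
      have h1 : e = 2 := by omega
      have h2 : m = 2 := le_antisymm (hme.trans h1.le) hmp.two_le
      apply h4
      rw [he, h1, h2]
    · rw [he]
      have := hmp.two_le
      nlinarith
  have h1 : Nat.fib d ∣ Nat.fib n := Nat.fib_dvd d n hd1
  rcases (Nat.dvd_prime h).1 h1 with h2 | h2
  · have h3 : Nat.fib 3 ≤ Nat.fib d := Nat.fib_mono hd2
    rw [h2] at h3
    norm_num [Nat.fib] at h3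
  · have h3 : Nat.fib d < Nat.fib n := (Nat.fib_lt_fib (by omega)).2 hd3
    omega

/-- If `(b ^ n + 1) / (b + 1)` is prime, `n` odd, then `n` is prime. -/
lemma wagstaff_prime_index {b n : ℕ} (hb : 2 ≤ b) (hn : Odd n)
    (h : ((b ^ n + 1) / (b + 1)).Prime) : n.Prime := by
  have hdvd : ∀ r : ℕ, Odd r → b + 1 ∣ b ^ r + 1 := by
    intro r hr
    have := hr.nat_add_dvd_pow_add_pow b 1
    rwa [one_pow] at this
  by_contra hnp
  have hn1 : n ≠ 1 := by
    rintro rfl
    rw [pow_one, Nat.div_self (by omega)] at h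
    exact Nat.not_prime_one h
  have hn2 : 2 ≤ n := by
    rcases n with _ | _ | n
    · simp at hn
    · exact absurd rfl hn1
    · omega
  obtain ⟨s, hs⟩ := Nat.minFac_dvd n
  set r := n.minFac with hr
  have hrp : r.Prime := Nat.minFac_prime (by omega)
  have hrn : r < n := (Nat.not_prime_iff_minFac_lt hn2).1 hnp
  have hrs : Odd (r * s) := hs ▸ hn
  have hrodd : Odd r := (Nat.odd_mul.1 hrs).1
  have hsodd : Odd s := (Nat.odd_mul.1 hrs).2
  have hr3 : 3 ≤ r := by
    rcases hrp.two_le.eq_or_lt with h2 | h2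
    · rw [← h2] at hrodd
      exact absurd hrodd (by decide)
    · exact h2
  obtain ⟨A, hA⟩ := hdvd r hrodd
  obtain ⟨k, hk⟩ : b ^ r + 1 ∣ b ^ n + 1 := by
    have h1 := hsodd.nat_add_dvd_pow_add_pow (b ^ r) 1
    rw [one_pow, ← pow_mul] at h1
    rw [hs]
    exact h1
  have hQ : (b ^ n + 1) / (b + 1) = A * k := by
    rw [hk, hA, mul_assoc, Nat.mul_div_cancel_left _ (by omega)]
  rw [hQ] at h
  have hb3 : b + 1 < b ^ r + 1 := by
    have h1 : b ^ 1 < b ^ r := Nat.pow_lt_pow_right (by omega) (by omega)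
    rw [pow_one] at h1
    omega
  have hA1 : A ≠ 1 := by
    rintro rfl
    omega
  have hk1 : k ≠ 1 := by
    rintro rfl
    have h1 : b ^ r < b ^ n := Nat.pow_lt_pow_right (by omega) hrn
    omega
  exact Nat.not_prime_mul hA1 hk1 h

end Pool.Agent.H473R4
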