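import Mathlib
import Pool.Agent.H447R2.ML.R5

set_option autoImplicit false

/-!
# Mean values and the almost everywhere theorem for general shift families
-/

namespace Pool.Agent.H473R4

open Filter Topology MeasureTheory
open Pool.Agent.H305R2 (roughPart ff measurable_ff ff_nonneg ff_le_one integrableOn_ff NN
  mem_Ioc_log bounds mertens_ratio log_nat_tendsto cesaro)
open Pool.Agent.H447R2.ML (Sh C1 cc ff_eq_ceil compare_counts' int_C1 mean_C1_any one_param_sh
  transfer ae_exp1 shift)

theorem gen_ceil {a : ℝ} (ha : 0 < a) {val : ℕ → ℝ → ℝ} {y' : ℕ → ℝ → ℝ}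
    (hm : ∀ p, Measurable (val p))
    (hpos : ∀ s S : ℝ, ∀ᶠ p : ℕ in atTop, ∀ t ∈ Set.Icc s S, 0 < val p (Real.exp t))
    (hfam : ∀ a0 a1 : ℝ, ∀ᶠ p : ℕ in atTop,
      Sh a a0 a1 p (fun t => Real.log (val p (Real.exp t))) (y' p)) :
    (∀ s t : ℝ, s < t → Tendsto (fun n : ℕ =>
        (∫ u in s..t, (cc val (Real.exp u) n : ℝ)) / ((t - s) * Real.log n)) atTop
        (𝓝 (Real.exp Real.eulerMascheroniConstant / a))) ∧
    (∀ᵐ β : ℝ, 0 < β →
      (∀ c : ℝ, c < Real.exp Real.eulerMascheroniConstant / a →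
        ∃ᶠ n : ℕ in atTop, c * Real.log n < cc val β n) ∧
      (∀ c : ℝ, Real.exp Real.eulerMascheroniConstant / a < c →
        ∃ᶠ n : ℕ in atTop, (cc val β n : ℝ) < c * Real.log n)) := by
  set y : ℕ → ℝ → ℝ := fun p t => Real.log (val p (Real.exp t)) with hy
  have hym : ∀ p, Measurable (y p) := fun p =>
    Real.measurable_log.comp ((hm p).comp Real.measurable_exp)
  have hcomp : ∀ s S : ℝ, ∃ P : ℕ, ∀ t : ℝ, s ≤ t → t ≤ S → ∀ p, P ≤ p → p.Prime →
      ff p (y p t) = if (roughPart p (⌈val p (Real.exp t)⌉₊ - 1)).Prime then 1 else 0 := by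
    intro s S
    obtain ⟨P, hP⟩ := eventually_atTop.1 (hpos s S)
    exact ⟨P, fun t h1 h2 p hp hpp => ff_eq_ceil (hP p hp t ⟨h1, h2⟩)⟩
  constructor
  · intro s t hst
    obtain ⟨P, hP⟩ := hcomp s t
    obtain ⟨N, hN⟩ := exists_nat_ge (t - s)
    have h1 := mean_C1_any ha hym (fun a0 a1 => hfam a0 a1) N s t hst hN
    have hts : 0 < t - s := by linarith
    have h2 : Tendsto (fun n : ℕ => (∫ x in Set.Ioc s t, C1 y x n) / ((t - s) * Real.log n)) atTop
        (𝓝 (Real.exp Real.eulerMascheroniConstant / a)) := by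
      have h3 := h1.div_const (t - s)
      have e : Real.exp Real.eulerMascheroniConstant * (t - s) / a / (t - s) =
          Real.exp Real.eulerMascheroniConstant / a := by field_simp
      rw [e] at h3
      refine h3.congr fun n => ?_
      rw [div_div, mul_comm (Real.log (n : ℝ))]
    have h4 : Tendsto (fun n : ℕ => (P : ℝ) / Real.log n) atTop (𝓝 0) :=
      log_nat_tendsto.const_div_atTop _
    have hcm : ∀ n : ℕ, IntegrableOn (fun u => (cc val (Real.exp u) n : ℝ)) (Set.Ioc s t) := by
      intro n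
      have e : ∀ u, (cc val (Real.exp u) n : ℝ) =
          ∑ p ∈ (Finset.range (n + 1)).filter Nat.Prime,
          if (roughPart p (⌈val p (Real.exp u)⌉₊ - 1)).Prime then (1 : ℝ) else 0 := by
        intro u
        unfold cc
        rw [← Finset.sum_filter, Finset.sum_const, nsmul_eq_mul, mul_one, Finset.filter_filter]
      simp only [e]
      refine integrable_finsetSum _ fun p _ => ?_
      refine Measure.integrableOn_of_bounded (M := 1) (by simp) ?_ ?_
      · have m1 : Measurable fun u : ℝ => ⌈val p (Real.exp u)⌉₊ :=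
          Nat.measurable_ceil.comp ((hm p).comp Real.measurable_exp)
        have m2 : Measurable fun m : ℕ => if (roughPart p (m - 1)).Prime then (1 : ℝ) else 0 :=
          measurable_from_top
        exact (m2.comp m1).aestronglyMeasurable
      · exact Eventually.of_forall fun x => by
          split_ifs <;> norm_num
    have h5 : ∀ n : ℕ, |(∫ u in Set.Ioc s t, (cc val (Real.exp u) n : ℝ)) -
        ∫ x in Set.Ioc s t, C1 y x n| ≤ (t - s) * P := by
      intro n
      rw [← integral_sub (hcm n) (int_C1 hym _ _ _), ← Real.norm_eq_abs]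
      have h6 := norm_setIntegral_le_of_norm_le_const (μ := volume) (s := Set.Ioc s t)
        (f := fun u => (cc val (Real.exp u) n : ℝ) - C1 y u n) (C := P)
        (by simp) (fun u hu => by
          have h7 := compare_counts' val (Real.exp u) y u (hP u hu.1.le hu.2) n
          rw [Real.norm_eq_abs, abs_le]
          constructor <;> linarith [h7.1, h7.2])
      rw [Real.volume_real_Ioc_of_le hst.le] at h6
      linarith
    have h6 : Tendsto (fun n : ℕ =>
        ((∫ u in Set.Ioc s t, (cc val (Real.exp u) n : ℝ)) -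
        ∫ x in Set.Ioc s t, C1 y x n) / ((t - s) * Real.log n)) atTop (𝓝 0) := by
      refine squeeze_zero_norm' ?_ h4
      filter_upwards [log_nat_tendsto.eventually_ge_atTop 1] with n hn
      have hl : 0 < Real.log n := by linarith
      rw [Real.norm_eq_abs, abs_div, abs_of_pos (mul_pos hts hl), div_le_div_iff₀ (mul_pos hts hl) hl]
      calc _ ≤ ((t - s) * P) * Real.log n := mul_le_mul_of_nonneg_right (h5 n) hl.le
        _ = _ := by ring
    have h7 := h6.add h2
    rw [zero_add] at h7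
    refine h7.congr fun n => ?_
    rw [intervalIntegral.integral_of_le hst.le, ← add_div, sub_add_cancel]
  · have h1 := one_param_sh ha hym fun a0 a1 _ => hfam a0 a1
    have h3 : ∀ᵐ t : ℝ,
        (∀ c : ℝ, c < Real.exp Real.eulerMascheroniConstant / a →
          ∃ᶠ n : ℕ in atTop, c * Real.log n < cc val (Real.exp t) n) ∧
        (∀ c : ℝ, Real.exp Real.eulerMascheroniConstant / a < c →
          ∃ᶠ n : ℕ in atTop,
            (cc val (Real.exp t) n : ℝ) < c * Real.log n) := by
      filter_upwards [h1] with t ht1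
      obtain ⟨k1, k2⟩ := ht1
      obtain ⟨P, hP⟩ := hcomp t t
      have hcomp := hP t le_rfl le_rfl
      exact transfer (F := C1 y t)
        (H := fun n => (cc val (Real.exp t) n : ℝ)) (P := P)
        (fun n => (compare_counts' _ (Real.exp t) y t hcomp n).1)
        (fun n => (compare_counts' _ (Real.exp t) y t hcomp n).2) k1 k2
    exact ae_exp1 h3

lemma exp_shift {α : ℝ} (hα : 0 < α) (p : ℕ) (t : ℝ) :
    Real.exp t * α ^ p = Real.exp (Real.log α * p + t) := by
  rw [Real.exp_add, mul_comm (Real.log α), Real.exp_nat_mul, Real.exp_log hα, mul_comm]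

/-- everything of size `κ ^ p` is small -/
lemma small {α κ D : ℝ} (hα : 0 < α) (hκ0 : 0 ≤ κ) (hκ : κ < α) (a0 : ℝ) :
    ∀ᶠ p : ℕ in atTop, 2 ≤ p ∧ D * κ ^ p ≤ 1 / (4 * p) * Real.exp (Real.log α * p + a0) := by
  have hr : κ / α < 1 := (div_lt_one hα).2 hκ
  have h1 := (tendsto_self_mul_const_pow_of_lt_one (div_nonneg hκ0 hα.le) hr).const_mul (4 * D)
  rw [mul_zero] at h1
  have h2 := h1.eventually_lt_const (Real.exp_pos a0)
  filter_upwards [h2, eventually_ge_atTop 2] with p hp hp2
  refine ⟨hp2, ?_⟩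
  have hp0 : (0 : ℝ) < p := by
    have : (2 : ℝ) ≤ p := by exact_mod_cast hp2
    linarith
  rw [← exp_shift hα]
  have hαp : 0 < α ^ p := pow_pos hα p
  rw [div_pow] at hp
  have h3 : 4 * D * (p * (κ ^ p / α ^ p)) * α ^ p < Real.exp a0 * α ^ p :=
    mul_lt_mul_of_pos_right hp hαp
  have h4 : 4 * D * (p * (κ ^ p / α ^ p)) * α ^ p = 4 * p * (D * κ ^ p) := by
    field_simp
  rw [h4] at h3
  rw [one_div, ← div_eq_inv_mul, le_div_iff₀ (by positivity)]
  linarith

/-- **The theorem for `x (α ^ p + d p) + h p`.** -/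
theorem gen_shift {α κ C : ℝ} (hα : 1 < α) (hκ0 : 0 ≤ κ) (hκ : κ < α) {d h : ℕ → ℝ}
    (hd : ∀ p, |d p| ≤ C * κ ^ p) (hh : ∀ p, |h p| ≤ C * κ ^ p) :
    (∀ s t : ℝ, s < t → Tendsto (fun n : ℕ =>
        (∫ u in s..t, (cc (fun p x => x * (α ^ p + d p) + h p) (Real.exp u) n : ℝ)) /
          ((t - s) * Real.log n)) atTop
        (𝓝 (Real.exp Real.eulerMascheroniConstant / Real.log α))) ∧
    (∀ᵐ β : ℝ, 0 < β →
      (∀ c : ℝ, c < Real.exp Real.eulerMascheroniConstant / Real.log α →
        ∃ᶠ n : ℕ in atTop, c * Real.log n < cc (fun p x => x * (α ^ p + d p) + h p) β n) ∧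
      (∀ c : ℝ, Real.exp Real.eulerMascheroniConstant / Real.log α < c →
        ∃ᶠ n : ℕ in atTop,
          (cc (fun p x => x * (α ^ p + d p) + h p) β n : ℝ) < c * Real.log n)) := by
  have hα0 : 0 < α := by linarith
  have hC : 0 ≤ C := by
    have := (abs_nonneg _).trans (hd 0)
    simpa using this
  -- the basic estimate
  have key : ∀ a0 a1 : ℝ, ∀ᶠ p : ℕ in atTop, 2 ≤ p ∧ ∀ t ∈ Set.Icc a0 a1,
      |Real.exp t * d p + h p| ≤ 1 / (4 * p) * Real.exp (Real.log α * p + a0) ∧
      |h p| ≤ 1 / (4 * p) * Real.exp (Real.log α * p + a0) := by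
    intro a0 a1
    filter_upwards [small (D := (Real.exp a1 + 1) * C) hα0 hκ0 hκ a0] with p hp
    obtain ⟨hp2, hs⟩ := hp
    refine ⟨hp2, fun t ht => ⟨?_, ?_⟩⟩
    · have h1 : |Real.exp t * d p + h p| ≤ Real.exp a1 * (C * κ ^ p) + C * κ ^ p := by
        refine (abs_add_le _ _).trans (add_le_add ?_ (hh p))
        rw [abs_mul, abs_of_pos (Real.exp_pos t)]
        exact mul_le_mul (Real.exp_le_exp.2 ht.2) (hd p) (abs_nonneg _) (Real.exp_pos _).le
      calc _ ≤ Real.exp a1 * (C * κ ^ p) + C * κ ^ p := h1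
        _ = (Real.exp a1 + 1) * C * κ ^ p := by ring
        _ ≤ _ := hs
    · calc |h p| ≤ C * κ ^ p := hh p
        _ ≤ (Real.exp a1 + 1) * C * κ ^ p := by
            have h0 : 0 ≤ C * κ ^ p := mul_nonneg hC (pow_nonneg hκ0 p)
            have := Real.exp_pos a1
            nlinarith
        _ ≤ _ := hs
  have hform : ∀ (p : ℕ) (t : ℝ), Real.exp t * (α ^ p + d p) + h p =
      Real.exp (Real.log α * p + t) + (Real.exp t * d p + h p) := by
    intro p t
    rw [mul_add, exp_shift hα0]
    ring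
  have hval : ∀ a0 a1 : ℝ, ∀ᶠ p : ℕ in atTop, 2 ≤ p ∧ ∀ t ∈ Set.Icc a0 a1,
      1 / 2 * Real.exp (Real.log α * p + a0) ≤ Real.exp t * (α ^ p + d p) + h p := by
    intro a0 a1
    filter_upwards [key a0 a1] with p hp
    refine ⟨hp.1, fun t ht => ?_⟩
    have h1 := (abs_le.1 (hp.2 t ht).1).1
    have hp2' : (2 : ℝ) ≤ p := by exact_mod_cast hp.1
    have h2 : Real.exp (Real.log α * p + a0) ≤ Real.exp (Real.log α * p + t) :=
      Real.exp_le_exp.2 (by linarith [ht.1])
    have h3 := Real.exp_pos (Real.log α * p + a0)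
    have hε : 1 / (4 * (p : ℝ)) ≤ 1 / 8 :=
      one_div_le_one_div_of_le (by norm_num) (by linarith)
    rw [hform]
    nlinarith
  refine gen_ceil (Real.log_pos hα)
    (y' := fun p t => Real.exp t * (α ^ p + d p) / (Real.exp t * (α ^ p + d p) + h p))
    (fun p => ?_) (fun s S => ?_) (fun a0 a1 => ?_)
  · exact (measurable_id.mul_const _).add_const _
  · filter_upwards [hval s S] with p hp t ht
    exact lt_of_lt_of_le (by positivity) (hp.2 t ht)
  · filter_upwards [key a0 a1, hval a0 a1] with p hp hv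
    obtain ⟨hp2, hk⟩ := hp
    have hp2' : (2 : ℝ) ≤ p := by exact_mod_cast hp2
    have hp0 : (0 : ℝ) < p := by linarith
    have hε : 1 / (4 * (p : ℝ)) ≤ 1 / 4 :=
      one_div_le_one_div_of_le (by norm_num) (by linarith)
    have e2 : 2 * (1 / (4 * (p : ℝ))) ≤ 1 / p := by
      rw [mul_one_div, div_le_div_iff₀ (by positivity) hp0]
      linarith
    have hE := Real.exp_pos (Real.log α * p + a0)
    refine ⟨fun t ht => ?_, fun t ht => ?_, fun t ht => ?_⟩
    · have := shift hε (hk t ht).1 (show Real.log α * p + a0 ≤ Real.log α * p + t by linarith [ht.1])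
      rw [← hform] at this
      exact this.trans e2
    · have hne : Real.exp t * (α ^ p + d p) + h p ≠ 0 :=
        (lt_of_lt_of_le (by positivity) (hv.2 t ht)).ne'
      have h3 : HasDerivAt (fun t : ℝ => Real.exp t * (α ^ p + d p) + h p)
          (Real.exp t * (α ^ p + d p)) t :=
        ((Real.hasDerivAt_exp t).mul_const _).add_const _
      exact h3.log hne
    · have hV := hv.2 t ht
      have hpos : 0 < Real.exp t * (α ^ p + d p) + h p := lt_of_lt_of_le (by positivity) hV
      have e3 : Real.exp t * (α ^ p + d p) / (Real.exp t * (α ^ p + d p) + h p) - 1 =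
          - h p / (Real.exp t * (α ^ p + d p) + h p) := by
        field_simp
        ring
      rw [e3, abs_div, abs_neg, abs_of_pos hpos, div_le_div_iff₀ hpos hp0]
      have h5 := (hk t ht).2
      have h6 : |h p| * p ≤ 1 / 4 * Real.exp (Real.log α * p + a0) := by
        calc |h p| * p ≤ (1 / (4 * p) * Real.exp (Real.log α * p + a0)) * p :=
              mul_le_mul_of_nonneg_right h5 hp0.le
          _ = 1 / 4 * Real.exp (Real.log α * p + a0) := by field_simp
      linarith

end Pool.Agent.H473R4
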