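import Mathlib
import Pool.Agent.H447R2.ML.P9

set_option autoImplicit false

/-!
# One-parameter families on a half line
-/

namespace Pool.Agent.H473R4

open Filter Topology MeasureTheory
open Pool.Agent.H305R2 (roughPart ff)
open Pool.Agent.H447R2.ML (Loc C1 upper_null lower_null cv compare_counts transfer ff_eq_floor
  ae_exp1)

/-- The almost everywhere theorem for one-parameter families defined for `t > t0` only. -/
theorem one_param_loc {t0 : ℝ} (ht0 : 0 ≤ t0) {y y' : ℕ → ℝ → ℝ} (hy : ∀ p, Measurable (y p))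
    (hfam : ∀ a0 a1 : ℝ, t0 < a0 → a0 < a1 → ∃ D : ℝ, 0 ≤ D ∧
      ∀ᶠ p : ℕ in atTop, Loc a0 a1 D p (y p) (y' p)) :
    ∀ᵐ t : ℝ, t0 < t →
      (∀ c : ℝ, c < Real.exp Real.eulerMascheroniConstant / t →
        ∃ᶠ n : ℕ in atTop, c * Real.log n < C1 y t n) ∧
      (∀ c : ℝ, Real.exp Real.eulerMascheroniConstant / t < c →
        ∃ᶠ n : ℕ in atTop, C1 y t n < c * Real.log n) := by
  set G := Real.exp Real.eulerMascheroniConstant with hG
  have hG0 : 0 < G := Real.exp_pos _
  have hU : ∀ᵐ t : ℝ, ∀ (a b c : ℚ) (n0 : ℕ), t0 < (a : ℝ) → (a : ℝ) < b → G / a < c →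
      ¬ (t ∈ Set.Ioo (a : ℝ) b ∩ ⋂ n ∈ Set.Ici n0, {t | (c : ℝ) * Real.log n ≤ C1 y t n}) := by
    simp only [ae_all_iff]
    intro a b c n0 ha hab hc
    obtain ⟨D, hD, hL⟩ := hfam a b ha hab
    have := upper_null (by linarith) hD hy hL hc n0
    rw [ae_iff]
    refine measure_mono_null (fun t ht => ?_) this
    simp only [Set.mem_ofPred_eq, not_not] at ht
    exact ht
  have hLo : ∀ᵐ t : ℝ, ∀ (a' a b c : ℚ) (n0 : ℕ), t0 < (a' : ℝ) → (a' : ℝ) < a → (a : ℝ) < b →
      0 ≤ (c : ℝ) → c < G / b →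
      ¬ (t ∈ Set.Ioo (a : ℝ) b ∩ ⋂ n ∈ Set.Ici n0, {t | C1 y t n ≤ (c : ℝ) * Real.log n}) := by
    simp only [ae_all_iff]
    intro a' a b c n0 ha' ha hab hc0 hc
    obtain ⟨D, hD, hL⟩ := hfam a' (b + 1) ha' (by linarith)
    have := lower_null (b0 := a) (b1 := b) (by linarith) hD ha (by linarith) hy hL hc0 hc
      hab n0
    rw [ae_iff]
    refine measure_mono_null (fun t ht => ?_) this
    simp only [Set.mem_ofPred_eq, not_not] at ht
    exact ht
  filter_upwards [hU, hLo] with t h1 h2 ht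
  have htp : 0 < t := by linarith
  constructor
  · intro c hc
    rw [Filter.frequently_iff_forall_eventually_exists_and]
    intro P hP
    obtain ⟨n0, hn0⟩ := eventually_atTop.1 hP
    have hmax : max c 0 < G / t := max_lt hc (by positivity)
    obtain ⟨c', hc1, hc2⟩ := exists_rat_btwn hmax
    have hc'0 : (0 : ℝ) < c' := lt_of_le_of_lt (le_max_right _ _) hc1
    obtain ⟨a', ha1', ha2'⟩ := exists_rat_btwn ht
    obtain ⟨a, ha1, ha2⟩ := exists_rat_btwn ha2'
    have hb : t < G / c' := by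
      rw [lt_div_iff₀ hc'0]
      rw [lt_div_iff₀ htp] at hc2
      linarith
    obtain ⟨b, hb1, hb2⟩ := exists_rat_btwn hb
    have hb0 : (0 : ℝ) < b := lt_trans htp hb1
    have hnot := h2 a' a b c' n0 ha1' ha1 (ha2.trans hb1) hc'0.le (by
      rw [lt_div_iff₀ hb0]
      rw [lt_div_iff₀ hc'0] at hb2
      linarith)
    simp only [Set.mem_inter_iff, Set.mem_Ioo, Set.mem_iInter, Set.mem_ofPred_eq, Set.mem_Ici,
      not_and, not_forall, not_le] at hnot
    obtain ⟨n, hn, hlt⟩ := hnot ⟨ha2, hb1⟩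
    refine ⟨n, lt_of_le_of_lt ?_ hlt, hn0 n hn⟩
    exact mul_le_mul_of_nonneg_right ((le_max_left _ _).trans hc1.le) (Real.log_natCast_nonneg n)
  · intro c hc
    rw [Filter.frequently_iff_forall_eventually_exists_and]
    intro P hP
    obtain ⟨n0, hn0⟩ := eventually_atTop.1 hP
    have hc0 : 0 < c := lt_trans (by positivity) hc
    obtain ⟨c', hc1, hc2⟩ := exists_rat_btwn hc
    have hc'0 : (0 : ℝ) < c' := lt_trans (by positivity) hc1
    have ha : max (G / c') t0 < t := by
      refine max_lt ?_ ht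
      rw [div_lt_iff₀ hc'0]
      rw [div_lt_iff₀ htp] at hc1
      linarith
    obtain ⟨a, ha1, ha2⟩ := exists_rat_btwn ha
    have ha0 : t0 < (a : ℝ) := lt_of_le_of_lt (le_max_right _ _) ha1
    have ha3 : G / c' < (a : ℝ) := lt_of_le_of_lt (le_max_left _ _) ha1
    have hap : (0 : ℝ) < a := by linarith
    obtain ⟨b, hb1, _⟩ := exists_rat_btwn (show t < t + 1 by linarith)
    have hnot := h1 a b c' n0 ha0 (ha2.trans hb1) (by
      rw [div_lt_iff₀ hap]
      rw [div_lt_iff₀ hc'0] at ha3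
      linarith)
    simp only [Set.mem_inter_iff, Set.mem_Ioo, Set.mem_iInter, Set.mem_ofPred_eq, Set.mem_Ici,
      not_and, not_forall, not_le] at hnot
    obtain ⟨n, hn, hlt⟩ := hnot ⟨ha2, hb1⟩
    refine ⟨n, lt_of_lt_of_le hlt ?_, hn0 n hn⟩
    exact mul_le_mul_of_nonneg_right hc2.le (Real.log_natCast_nonneg n)

/-- Integer parts of the values of a one-parameter family on a half line. -/
theorem one_param_val_loc {x0 : ℝ} (hx0 : 1 ≤ x0) {val y' : ℕ → ℝ → ℝ}
    (hval : ∀ p, Measurable (val p))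
    (hpos : ∀ p : ℕ, 1 ≤ p → ∀ x : ℝ, x0 < x → 0 < val p x)
    (hfam : ∀ a0 a1 : ℝ, Real.log x0 < a0 → a0 < a1 → ∃ D : ℝ, 0 ≤ D ∧
      ∀ᶠ p : ℕ in atTop, Loc a0 a1 D p (fun t => Real.log (val p (Real.exp t))) (y' p)) :
    ∀ᵐ x : ℝ, x0 < x →
      (∀ c : ℝ, c < Real.exp Real.eulerMascheroniConstant / Real.log x →
        ∃ᶠ n : ℕ in atTop, c * Real.log n < cv val x n) ∧
      (∀ c : ℝ, Real.exp Real.eulerMascheroniConstant / Real.log x < c →
        ∃ᶠ n : ℕ in atTop, (cv val x n : ℝ) < c * Real.log n) := by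
  have hx00 : 0 < x0 := by linarith
  have ht0 : 0 ≤ Real.log x0 := Real.log_nonneg hx0
  set y : ℕ → ℝ → ℝ := fun p t => Real.log (val p (Real.exp t)) with hy
  have hym : ∀ p, Measurable (y p) := fun p =>
    Real.measurable_log.comp ((hval p).comp Real.measurable_exp)
  have h1 := one_param_loc ht0 hym hfam
  have h2 : ∀ᵐ t : ℝ, ∀ a b : ℚ, Real.log x0 < (a : ℝ) → (a : ℝ) < b →
      t ∈ Set.Icc (a : ℝ) b →
      ∃ P : ℕ, ∀ p, P ≤ p → ∀ m : ℕ, val p (Real.exp t) ≠ m := by
    simp only [ae_all_iff]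
    intro a b ha hab
    obtain ⟨D, hD, hev⟩ := hfam a b ha hab
    have hlarge : ∀ᶠ p : ℕ in atTop, 3 * D < p := tendsto_natCast_atTop_atTop.eventually_gt_atTop _
    obtain ⟨P, hP⟩ := eventually_atTop.1 (hev.and (hlarge.and (eventually_ge_atTop 1)))
    have hnull : volume (⋃ p ∈ Set.Ici P, ⋃ m : ℕ,
        {t | t ∈ Set.Icc (a : ℝ) b ∧ val p (Real.exp t) = m}) = 0 := by
      refine Set.Countable.measure_zero ?_ volume
      refine Set.Countable.biUnion (Set.to_countable _) fun p hp => Set.countable_iUnion fun m => ?_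
      refine Set.Subsingleton.countable ?_
      rintro s ⟨hs1, hs2⟩ t ⟨ht1, ht2⟩
      obtain ⟨hL, hp3, _⟩ := hP p hp
      refine (hL.strict hp3 hD).injOn hs1 ht1 ?_
      show Real.log (val p (Real.exp s)) = Real.log (val p (Real.exp t))
      rw [hs2, ht2]
    have hae : ∀ᵐ t : ℝ, t ∉ ⋃ p ∈ Set.Ici P, ⋃ m : ℕ,
        {t | t ∈ Set.Icc (a : ℝ) b ∧ val p (Real.exp t) = m} := by
      rw [ae_iff]
      refine measure_mono_null (fun t ht => ?_) hnull
      simpa only [Set.mem_ofPred_eq, not_not] using ht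
    filter_upwards [hae] with t ht htI
    refine ⟨P, fun p hp m hm => ht ?_⟩
    simp only [Set.mem_iUnion]
    exact ⟨p, hp, m, htI, hm⟩
  have h3 : ∀ᵐ t : ℝ, Real.log x0 < t →
      (∀ c : ℝ, c < Real.exp Real.eulerMascheroniConstant / t →
        ∃ᶠ n : ℕ in atTop, c * Real.log n < cv val (Real.exp t) n) ∧
      (∀ c : ℝ, Real.exp Real.eulerMascheroniConstant / t < c →
        ∃ᶠ n : ℕ in atTop, (cv val (Real.exp t) n : ℝ) < c * Real.log n) := by
    filter_upwards [h1, h2] with t ht1 ht2 ht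
    obtain ⟨k1, k2⟩ := ht1 ht
    obtain ⟨a, ha1, ha2⟩ := exists_rat_btwn ht
    obtain ⟨b, hb1, _⟩ := exists_rat_btwn (show t < t + 1 by linarith)
    obtain ⟨P, hP⟩ := ht2 a b ha1 (ha2.trans hb1) ⟨ha2.le, hb1.le⟩
    have hcomp : ∀ p, P ≤ p → p.Prime → ff p (y p t) =
        if (roughPart p ⌊val p (Real.exp t)⌋₊).Prime then 1 else 0 := by
      intro p hp hpp
      refine ff_eq_floor (hpos p hpp.one_lt.le _ ?_) (hP p hp)
      exact (Real.log_lt_iff_lt_exp hx00).1 ht
    exact transfer (F := C1 y t) (H := fun n => (cv val (Real.exp t) n : ℝ)) (P := P)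
      (fun n => (compare_counts val (Real.exp t) y t hcomp n).1)
      (fun n => (compare_counts val (Real.exp t) y t hcomp n).2) k1 k2
  have h4 := ae_exp1 (P := fun x => x0 < x →
      (∀ c : ℝ, c < Real.exp Real.eulerMascheroniConstant / Real.log x →
        ∃ᶠ n : ℕ in atTop, c * Real.log n < cv val x n) ∧
      (∀ c : ℝ, Real.exp Real.eulerMascheroniConstant / Real.log x < c →
        ∃ᶠ n : ℕ in atTop, (cv val x n : ℝ) < c * Real.log n)) (by
    filter_upwards [h3] with t ht hx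
    rw [Real.log_exp]
    exact ht ((Real.log_lt_iff_lt_exp hx00).2 hx))
  filter_upwards [h4] with x hx hx1
  exact hx (by linarith) hx1

/-- The family `(x ^ p - c ^ p) / (x - c)` for `x > max 1 |c|`. -/
lemma fam_quot (c : ℝ) {a0 a1 : ℝ} (ha : Real.log (max 1 |c|) < a0) (hab : a0 < a1) :
    ∃ D : ℝ, 0 ≤ D ∧ ∀ᶠ p : ℕ in atTop, Loc a0 a1 D p
      (fun t => Real.log ((Real.exp t ^ p - c ^ p) / (Real.exp t - c)))
      (fun t => p * Real.exp t ^ p / (Real.exp t ^ p - c ^ p) -
        Real.exp t / (Real.exp t - c)) := by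
  have hm0 : 0 < max 1 |c| := lt_of_lt_of_le one_pos (le_max_left _ _)
  have hxe : max 1 |c| < Real.exp a0 := (Real.log_lt_iff_lt_exp hm0).1 ha
  have hc1 : |c| < Real.exp a0 := lt_of_le_of_lt (le_max_right _ _) hxe
  set ρ := |c| / Real.exp a0 with hρ
  have hρ0 : 0 ≤ ρ := by positivity
  have hρ1 : ρ < 1 := by rw [hρ, div_lt_one (Real.exp_pos _)]; exact hc1
  have hpos : ∀ t ∈ Set.Icc a0 a1, 0 < Real.exp t - c := fun t ht => by
    have h1 := Real.exp_le_exp.2 ht.1
    have h2 := le_abs_self c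
    linarith
  have hcont1 : ContinuousOn (fun t => Real.log (Real.exp t - c)) (Set.Icc a0 a1) :=
    ContinuousOn.log (Real.continuous_exp.continuousOn.sub continuousOn_const)
      fun t ht => (hpos t ht).ne'
  have hcont2 : ContinuousOn (fun t => Real.exp t / (Real.exp t - c)) (Set.Icc a0 a1) :=
    ContinuousOn.div Real.continuous_exp.continuousOn
      (Real.continuous_exp.continuousOn.sub continuousOn_const) fun t ht => (hpos t ht).ne'
  obtain ⟨M, hM⟩ := isCompact_Icc.exists_bound_of_continuousOn hcont1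
  obtain ⟨M', hM'⟩ := isCompact_Icc.exists_bound_of_continuousOn hcont2
  have hM0 : 0 ≤ M := (norm_nonneg _).trans (hM a0 ⟨le_rfl, hab.le⟩)
  have hM'0 : 0 ≤ M' := (norm_nonneg _).trans (hM' a0 ⟨le_rfl, hab.le⟩)
  refine ⟨1 + M + M', by positivity, ?_⟩
  have hlim := tendsto_self_mul_const_pow_of_lt_one hρ0 hρ1
  filter_upwards [hlim.eventually_lt_const (show (0 : ℝ) < 1 / 4 by norm_num),
    eventually_ge_atTop 1] with p hp hp1
  have hp1' : (1 : ℝ) ≤ p := by exact_mod_cast hp1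
  have hρp : ρ ^ p ≤ 1 / 4 := by
    have h1 : ρ ^ p ≤ p * ρ ^ p := le_mul_of_one_le_left (by positivity) hp1'
    linarith
  -- `|c ^ p| ≤ ρ ^ p x ^ p`
  have hcp : ∀ t ∈ Set.Icc a0 a1, |c ^ p| ≤ ρ ^ p * Real.exp t ^ p := by
    intro t ht
    rw [abs_pow, ← mul_pow]
    refine pow_le_pow_left₀ (abs_nonneg _) ?_ p
    have h1 := Real.exp_le_exp.2 ht.1
    calc |c| = ρ * Real.exp a0 := by rw [hρ]; field_simp
      _ ≤ ρ * Real.exp t := mul_le_mul_of_nonneg_left h1 hρ0
  have hnum : ∀ t ∈ Set.Icc a0 a1, Real.exp t ^ p / 2 ≤ Real.exp t ^ p - c ^ p ∧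
      Real.exp t ^ p - c ^ p ≤ 2 * Real.exp t ^ p := by
    intro t ht
    have h1 := abs_le.1 (hcp t ht)
    have h2 : 0 < Real.exp t ^ p := by positivity
    have h3 : ρ ^ p * Real.exp t ^ p ≤ 1 / 4 * Real.exp t ^ p :=
      mul_le_mul_of_nonneg_right hρp h2.le
    constructor <;> linarith
  have hnp : ∀ t ∈ Set.Icc a0 a1, 0 < Real.exp t ^ p - c ^ p := fun t ht => by
    have h1 := (hnum t ht).1
    have h2 : 0 < Real.exp t ^ p := by positivity
    linarith
  refine ⟨fun t ht => ?_, fun t ht => ?_, fun t ht => ?_⟩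
  · obtain ⟨h1, h2⟩ := hnum t ht
    have hN := hnp t ht
    have hl2 := Real.log_two_lt_d9
    have hlt : Real.log (Real.exp t ^ p) = p * t := by rw [Real.log_pow, Real.log_exp]
    have hE : 0 < Real.exp t ^ p := by positivity
    have h3 : |Real.log (Real.exp t ^ p - c ^ p) - p * t| ≤ 1 := by
      rw [abs_le]
      constructor
      · have h4 := Real.log_le_log (by positivity) h1
        rw [Real.log_div hE.ne' two_ne_zero, hlt] at h4
        linarith
      · have h4 := Real.log_le_log hN h2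
        rw [Real.log_mul two_ne_zero hE.ne', hlt] at h4
        linarith
    have h4 := hM t ht
    rw [Real.norm_eq_abs] at h4
    rw [Real.log_div hN.ne' (hpos t ht).ne']
    have h5 : Real.log (Real.exp t ^ p - c ^ p) - Real.log (Real.exp t - c) - p * t =
        (Real.log (Real.exp t ^ p - c ^ p) - p * t) - Real.log (Real.exp t - c) := by ring
    rw [h5]
    refine (abs_sub _ _).trans ?_
    linarith
  · have hN := hnp t ht
    have hd1 : HasDerivAt (fun t : ℝ => Real.exp t ^ p - c ^ p)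
        (p * Real.exp t ^ (p - 1) * Real.exp t) t :=
      ((Real.hasDerivAt_exp t).pow p).sub_const _
    have hd2 : HasDerivAt (fun t : ℝ => Real.exp t - c) (Real.exp t) t :=
      (Real.hasDerivAt_exp t).sub_const _
    have hd := (hd1.log hN.ne').sub (hd2.log (hpos t ht).ne')
    have e : p * Real.exp t ^ (p - 1) * Real.exp t = p * Real.exp t ^ p := by
      rw [mul_assoc, ← pow_succ, Nat.sub_add_cancel hp1]
    rw [e] at hd
    have hev : (fun t : ℝ => Real.log ((Real.exp t ^ p - c ^ p) / (Real.exp t - c))) =ᶠ[𝓝 t]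
        (fun t : ℝ => Real.log (Real.exp t ^ p - c ^ p)) - fun t : ℝ =>
          Real.log (Real.exp t - c) := by
      have c1 : ContinuousAt (fun t : ℝ => Real.exp t ^ p - c ^ p) t :=
        ((Real.continuous_exp.pow p).sub continuous_const).continuousAt
      have c2 : ContinuousAt (fun t : ℝ => Real.exp t - c) t :=
        (Real.continuous_exp.sub continuous_const).continuousAt
      filter_upwards [c1.eventually_ne hN.ne', c2.eventually_ne (hpos t ht).ne'] with u hu1 hu2
      rw [Pi.sub_apply, Real.log_div hu1 hu2]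
    exact hd.congr_of_eventuallyEq hev
  · obtain ⟨h1, h2⟩ := hnum t ht
    have hN := hnp t ht
    have hE : 0 < Real.exp t ^ p := by positivity
    have h3 : |p * Real.exp t ^ p / (Real.exp t ^ p - c ^ p) - p| ≤ 1 := by
      have e : p * Real.exp t ^ p / (Real.exp t ^ p - c ^ p) - p =
          p * c ^ p / (Real.exp t ^ p - c ^ p) := by
        field_simp; ring
      rw [e, abs_div, abs_mul, abs_of_pos hN, abs_of_pos (by linarith : (0 : ℝ) < p),
        div_le_one hN]
      calc (p : ℝ) * |c ^ p| ≤ p * (ρ ^ p * Real.exp t ^ p) :=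
            mul_le_mul_of_nonneg_left (hcp t ht) (by linarith)
        _ = (p * ρ ^ p) * Real.exp t ^ p := by ring
        _ ≤ 1 / 4 * Real.exp t ^ p := mul_le_mul_of_nonneg_right hp.le hE.le
        _ ≤ Real.exp t ^ p - c ^ p := by linarith
    have h4 := hM' t ht
    rw [Real.norm_eq_abs] at h4
    have h5 : p * Real.exp t ^ p / (Real.exp t ^ p - c ^ p) - Real.exp t / (Real.exp t - c) - p =
        (p * Real.exp t ^ p / (Real.exp t ^ p - c ^ p) - p) - Real.exp t / (Real.exp t - c) := by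
      ring
    rw [h5]
    refine (abs_sub _ _).trans ?_
    linarith

end Pool.Agent.H473R4
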