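import Mathlib
import Pool.Agent.H447R2.ML.P9

set_option autoImplicit false

/-!
# One-parameter families `(x ^ p + s_p x ^ (-p)) h(x)`
-/

namespace Pool.Agent.H473R4

open Filter Topology MeasureTheory
open Pool.Agent.H447R2.ML (Loc)

/-- the phase functions `log (e ^ (p t) + s_p e ^ (-p t)) + H t` -/
lemma fam_pm {s : ℕ → ℝ} (hs : ∀ p, |s p| ≤ 1) {H H' : ℝ → ℝ}
    (hH : ∀ t : ℝ, 0 < t → HasDerivAt H (H' t) t)
    (hc : ContinuousOn H' (Set.Ioi 0)) {y : ℕ → ℝ → ℝ}
    (hy : ∀ p : ℕ, 1 ≤ p → ∀ t : ℝ, 0 < t →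
      y p t = Real.log (Real.exp (p * t) + s p * Real.exp (-(p * t))) + H t) :
    ∀ a0 a1 : ℝ, 0 < a0 → a0 < a1 → ∃ D : ℝ, 0 ≤ D ∧ ∀ᶠ p : ℕ in atTop,
      Loc a0 a1 D p (y p) (fun t => p * (Real.exp (p * t) - s p * Real.exp (-(p * t))) /
        (Real.exp (p * t) + s p * Real.exp (-(p * t))) + H' t) := by
  intro a0 a1 ha0 ha
  have hsub : Set.Icc a0 a1 ⊆ Set.Ioi 0 := fun t ht => lt_of_lt_of_le ha0 ht.1
  have hHc : ContinuousOn H (Set.Icc a0 a1) := fun t ht =>
    (hH t (hsub ht)).continuousAt.continuousWithinAt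
  obtain ⟨M, hM⟩ := isCompact_Icc.exists_bound_of_continuousOn hHc
  obtain ⟨M', hM'⟩ := isCompact_Icc.exists_bound_of_continuousOn (hc.mono hsub)
  have hM0 : 0 ≤ M := (norm_nonneg _).trans (hM a0 ⟨le_rfl, ha.le⟩)
  have hM'0 : 0 ≤ M' := (norm_nonneg _).trans (hM' a0 ⟨le_rfl, ha.le⟩)
  refine ⟨1 + 1 / a0 + M + M', by positivity, ?_⟩
  have hlarge : ∀ᶠ p : ℕ in atTop, 1 / a0 ≤ p := tendsto_natCast_atTop_atTop.eventually_ge_atTop _
  filter_upwards [hlarge, eventually_ge_atTop 1] with p hp hp1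
  have hp1' : (1 : ℝ) ≤ p := by exact_mod_cast hp1
  have h1a : 0 < 1 / a0 := by positivity
  have hsp := abs_le.1 (hs p)
  -- basic facts about the exponentials
  have hexp : ∀ t ∈ Set.Icc a0 a1, 1 ≤ p * t ∧ 1 + 2 * (p * t) ≤ Real.exp (p * t) ^ 2 ∧
      Real.exp (p * t) * Real.exp (-(p * t)) = 1 ∧ 0 < Real.exp (p * t) ∧
      0 < Real.exp (-(p * t)) := by
    intro t ht
    refine ⟨?_, ?_, ?_, Real.exp_pos _, Real.exp_pos _⟩
    · rw [div_le_iff₀ ha0] at hp
      have : (p : ℝ) * a0 ≤ p * t := mul_le_mul_of_nonneg_left ht.1 (by linarith)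
      linarith
    · have := Real.add_one_le_exp (2 * ((p : ℝ) * t))
      have e : Real.exp (p * t) ^ 2 = Real.exp (2 * (p * t)) := by
        rw [← Real.exp_nat_mul]; norm_num
      rw [e]; linarith
    · rw [← Real.exp_add, add_neg_cancel, Real.exp_zero]
  have hsm : ∀ t ∈ Set.Icc a0 a1, 2 * Real.exp (-(p * t)) ≤ Real.exp (p * t) := by
    intro t ht
    obtain ⟨h1, h2, h3, h4, h5⟩ := hexp t ht
    have h6 : 2 ≤ Real.exp (p * t) ^ 2 := by linarith
    have h7 : 2 * Real.exp (-(p * t)) ≤ Real.exp (p * t) ^ 2 * Real.exp (-(p * t)) :=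
      mul_le_mul_of_nonneg_right h6 h5.le
    have h8 : Real.exp (p * t) ^ 2 * Real.exp (-(p * t)) = Real.exp (p * t) := by
      rw [sq, mul_assoc, h3, mul_one]
    linarith
  have hse : ∀ t : ℝ, -Real.exp (-(p * t)) ≤ s p * Real.exp (-(p * t)) ∧
      s p * Real.exp (-(p * t)) ≤ Real.exp (-(p * t)) := by
    intro t
    have h5 := Real.exp_pos (-(p * t))
    constructor
    · nlinarith
    · nlinarith
  have hden : ∀ t ∈ Set.Icc a0 a1, 0 < Real.exp (p * t) + s p * Real.exp (-(p * t)) := by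
    intro t ht
    obtain ⟨h1, h2, h3, h4, h5⟩ := hexp t ht
    have := hsm t ht
    have := (hse t).1
    linarith
  refine ⟨fun t ht => ?_, fun t ht => ?_, fun t ht => ?_⟩
  · obtain ⟨h1, h2, h3, h4, h5⟩ := hexp t ht
    rw [hy p hp1 t (hsub ht)]
    have h3 : |Real.log (Real.exp (p * t) + s p * Real.exp (-(p * t))) - p * t| ≤ 1 := by
      have hl2 := Real.log_two_lt_d9
      have hpos := hden t ht
      have hsm' := hsm t ht
      have hse' := hse t
      rw [abs_le]
      constructor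
      · have : p * t - Real.log 2 ≤
            Real.log (Real.exp (p * t) + s p * Real.exp (-(p * t))) := by
          rw [Real.le_log_iff_exp_le hpos, Real.exp_sub, Real.exp_log two_pos]
          linarith
        linarith
      · have : Real.log (Real.exp (p * t) + s p * Real.exp (-(p * t))) ≤
            p * t + Real.log 2 := by
          rw [Real.log_le_iff_le_exp hpos, Real.exp_add, Real.exp_log two_pos]
          linarith
        linarith
    have h4 := hM t ht
    rw [Real.norm_eq_abs] at h4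
    have h5 : Real.log (Real.exp (p * t) + s p * Real.exp (-(p * t))) + H t - p * t =
        (Real.log (Real.exp (p * t) + s p * Real.exp (-(p * t))) - p * t) + H t := by ring
    rw [h5]
    refine (abs_add_le _ _).trans ?_
    linarith
  · have hpos := (hden t ht).ne'
    have hd : HasDerivAt (fun t => Real.log (Real.exp (p * t) + s p * Real.exp (-(p * t))) + H t)
        (p * (Real.exp (p * t) - s p * Real.exp (-(p * t))) /
        (Real.exp (p * t) + s p * Real.exp (-(p * t))) + H' t) t := by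
      have h0 : HasDerivAt (fun t : ℝ => (p : ℝ) * t) (p * 1) t :=
        (hasDerivAt_id t).const_mul (p : ℝ)
      have h3 : HasDerivAt (fun t : ℝ => Real.exp (p * t) + s p * Real.exp (-(p * t)))
          (Real.exp (p * t) * (p * 1) + s p * (Real.exp (-(p * t)) * (-(p * 1)))) t :=
        (h0.exp).add ((h0.neg.exp).const_mul (s p))
      exact ((h3.log hpos).add (hH t (hsub ht))).congr_deriv (by ring)
    refine hd.congr_of_eventuallyEq ?_
    filter_upwards [Ioi_mem_nhds (hsub ht)] with u hu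
    exact hy p hp1 u hu
  · obtain ⟨h1, h2, h3, h4, h5⟩ := hexp t ht
    have hpos := hden t ht
    have ht0 : 0 < t := hsub ht
    have h6 : |p * (Real.exp (p * t) - s p * Real.exp (-(p * t))) /
        (Real.exp (p * t) + s p * Real.exp (-(p * t))) - p| ≤ 1 / a0 := by
      have e : p * (Real.exp (p * t) - s p * Real.exp (-(p * t))) /
          (Real.exp (p * t) + s p * Real.exp (-(p * t))) - p =
          -(2 * p * (s p * Real.exp (-(p * t)))) /
            (Real.exp (p * t) + s p * Real.exp (-(p * t))) := by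
        field_simp; ring
      have hsabs : |s p * Real.exp (-(p * t))| ≤ Real.exp (-(p * t)) :=
        abs_le.2 ⟨by have := (hse t).1; linarith, (hse t).2⟩
      rw [e, abs_div, abs_neg, abs_mul, abs_of_pos hpos, abs_of_pos (by linarith : (0 : ℝ) < 2 * p),
        div_le_div_iff₀ hpos ha0, one_mul]
      have h7 : 2 * (p : ℝ) * a0 ≤ 2 * (p * t) := by
        have := mul_le_mul_of_nonneg_left ht.1 (show (0 : ℝ) ≤ p by linarith)
        linarith
      have h8 : 2 * (p * t) * Real.exp (-(p * t)) + Real.exp (-(p * t)) ≤ Real.exp (p * t) := by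
        have h9 : (1 + 2 * (p * t)) * Real.exp (-(p * t)) ≤
            Real.exp (p * t) ^ 2 * Real.exp (-(p * t)) := mul_le_mul_of_nonneg_right h2 h5.le
        have h10 : Real.exp (p * t) ^ 2 * Real.exp (-(p * t)) = Real.exp (p * t) := by
          rw [sq, mul_assoc, h3, mul_one]
        linarith
      calc 2 * (p : ℝ) * |s p * Real.exp (-(p * t))| * a0
          = (2 * p * a0) * |s p * Real.exp (-(p * t))| := by ring
        _ ≤ (2 * (p * t)) * Real.exp (-(p * t)) := by
            refine mul_le_mul h7 hsabs (abs_nonneg _) (by positivity)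
        _ ≤ Real.exp (p * t) + s p * Real.exp (-(p * t)) := by
            have := (hse t).1
            linarith
    have h4 := hM' t ht
    rw [Real.norm_eq_abs] at h4
    have h5 : p * (Real.exp (p * t) - s p * Real.exp (-(p * t))) /
        (Real.exp (p * t) + s p * Real.exp (-(p * t))) + H' t - p =
        (p * (Real.exp (p * t) - s p * Real.exp (-(p * t))) /
        (Real.exp (p * t) + s p * Real.exp (-(p * t))) - p) + H' t := by ring
    rw [h5]
    refine (abs_add_le _ _).trans ?_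
    linarith

/-- the coordinate change `P = x - 1 / x` -/
lemma ae_sub_inv {Q : ℝ → Prop} (h : ∀ᵐ x : ℝ, 1 < x → Q (x - x⁻¹)) :
    ∀ᵐ P : ℝ, 0 < P → Q P := by
  rw [ae_iff] at h ⊢
  set B : Set ℝ := {x : ℝ | ¬ (1 < x → Q (x - x⁻¹))} with hB
  have hd : DifferentiableOn ℝ (fun x : ℝ => x - x⁻¹) B := by
    intro x hx
    simp only [hB, Set.mem_ofPred_eq, Classical.not_imp] at hx
    have hx0 : x ≠ 0 := by linarith [hx.1]
    exact (differentiableAt_id.sub (differentiableAt_inv hx0)).differentiableWithinAt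
  have h1 : volume ((fun x : ℝ => x - x⁻¹) '' B) = 0 :=
    addHaar_image_eq_zero_of_differentiableOn_of_addHaar_eq_zero volume hd h
  refine measure_mono_null ?_ h1
  intro P hP
  simp only [Set.mem_ofPred_eq, Classical.not_imp] at hP
  obtain ⟨hP1, hP2⟩ := hP
  set s := √(P ^ 2 + 4) with hs
  have hs2 : s ^ 2 = P ^ 2 + 4 := Real.sq_sqrt (by positivity)
  have hs0 : 0 ≤ s := Real.sqrt_nonneg _
  have hs3 : 2 < s := by
    have : (2 : ℝ) ^ 2 < s ^ 2 := by rw [hs2]; nlinarith
    exact lt_of_pow_lt_pow_left₀ 2 hs0 this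
  have hx1 : 1 < (P + s) / 2 := by linarith
  have hinv : ((P + s) / 2)⁻¹ = (s - P) / 2 := by
    have : (P + s) / 2 * ((s - P) / 2) = 1 := by nlinarith
    exact inv_eq_of_mul_eq_one_right this
  have hval : (P + s) / 2 - ((P + s) / 2)⁻¹ = P := by rw [hinv]; ring
  refine ⟨(P + s) / 2, ?_, hval⟩
  simp only [hB, Set.mem_ofPred_eq, Classical.not_imp]
  exact ⟨hx1, by rw [hval]; exact hP2⟩

end Pool.Agent.H473R4
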